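import Pool.Agent.Lib.MP_36248f_gt.Final

/-!
A hyperbolic knot without hidden symmetries whose complement contains a closed immersed totally
geodesic surface.
-/

open Pool.Agent.Lib.MP_36248f_gt

namespace Pool.Agent.Results.MP_36248f_gt.Knot

theorem result : ∃ (K : Set S3) (Γ : Subgroup SL2C) (π : H3 → S3), IsKnot K ∧ IsHyp K Γ π ∧
    Subgroup.normalizer ((Γ.map (QuotientGroup.mk' (Subgroup.center SL2C)) :
      Subgroup (Matrix.ProjectiveSpecialLinearGroup (Fin 2) ℂ)) :
        Set (Matrix.ProjectiveSpecialLinearGroup (Fin 2) ℂ)) =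
      Subgroup.Commensurable.commensurator (Γ.map (QuotientGroup.mk' (Subgroup.center SL2C))) ∧
    ∃ P C : Set H3, IsPlane P ∧ IsCompact C ∧ C ⊆ P ∧
      ∀ p ∈ P, ∃ γ ∈ Γ, act γ '' P = P ∧ act γ p ∈ C := main

end Pool.Agent.Results.MP_36248f_gt.Knot
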